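import Mathlib
import Pool.Agent.Helper83_Frankfurt.Defs
import Pool.Agent.Helper83_Frankfurt.NonCyclic

/-!
Negative answer to Q1: for every exponent `0 < p < ∞` there is a symmetric measure `μ` on the closed
unit disc and weakly invertible `g, h ∈ E^p(μ)` whose product lies in `E^p(μ)` but is not weakly
invertible.
-/

open MeasureTheory Metric Set Filter Topology Polynomial
open scoped ENNReal

namespace Pool.Agent.Results.MP_2c3223_an.Q1Negative

open Pool.Agent.Helper83_Frankfurt

theorem result (p : ℝ) (hp : 0 < p) :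
    ∃ ν : Measure ℝ, IsRadialMeasure ν ∧ ∃ g h : ℂ → ℂ,
      WeaklyInvertible p (symMeasure ν) g ∧ WeaklyInvertible p (symMeasure ν) h ∧
      MemE p (symMeasure ν) (fun z => g z * h z) ∧
      ¬ WeaklyInvertible p (symMeasure ν) (fun z => g z * h z) := by
  obtain ⟨S, W, L, n, hall⟩ := exists_seq (fun j => (j : ℝ) ^ 2)
  have hL : ∀ j, 0 ≤ L j := fun j => (hall j).1
  have hn8 : ∀ j, (sR j / rR j) ^ n j ≤ 1/8 := fun j => (hall j).2.2.1
  have hS := fun j => (hall j).2.2.2.1
  have hW := fun j => (hall j).2.2.2.2.1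
  have hup := fun j => (hall j).2.2.2.2.2.1
  have hE := fun j => (hall j).2.2.2.2.2.2.1
  have hG := fun j => (hall j).2.2.2.2.2.2.2.1
  have hH := fun j => (hall j).2.2.2.2.2.2.2.2.1
  have hneg := fun j => (hall j).2.2.2.2.2.2.2.2.2
  obtain ⟨hΦd, hΦ⟩ := tsum_poly hS
  obtain ⟨hΨd, hΨ⟩ := tsum_poly hW
  set Φ : ℂ → ℂ := fun z => ∑' j, (S j).eval z with hΦdef
  set Ψ : ℂ → ℂ := fun z => ∑' j, (W j).eval z with hΨdef
  have hhalf : ∀ j : ℕ, ((1/2 : ℝ)) ^ (j + 1) ≤ 1/2 := fun j => by
    have : ((1/2 : ℝ)) ^ (j + 1) ≤ (1/2) ^ 1 :=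
      pow_le_pow_of_le_one (by norm_num) (by norm_num) (by omega)
    linarith
  -- `Φ` and `Ψ` are close to their partial sums on the circles
  have hΦc : ∀ j (z : ℂ), ‖z‖ = rR j →
      |(Φ z).re - (∑ i ∈ Finset.range (j + 1), (S i).eval z).re| ≤ 1/2 := by
    intro j z hz
    rw [← Complex.sub_re]
    exact (Complex.abs_re_le_norm _).trans
      ((hΦ (j + 1) z (hz ▸ (rR_lt_sR j).le)).trans (hhalf j))
  have hΨc : ∀ j (z : ℂ), ‖z‖ = rR j →
      |(Ψ z).re - (∑ i ∈ Finset.range (j + 1), (W i).eval z).re| ≤ 1/2 := by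
    intro j z hz
    rw [← Complex.sub_re]
    exact (Complex.abs_re_le_norm _).trans
      ((hΨ (j + 1) z (hz ▸ (rR_lt_sR j).le)).trans (hhalf j))
  have hprod : (fun z => Complex.exp (Φ z - Ψ z) * Complex.exp (Ψ z)) =
      fun z => Complex.exp (Φ z) := by
    funext z
    rw [← Complex.exp_add]
    congr 1
    ring
  refine ⟨nuM (cM p L), isRadialMeasure_nuM (cM_pos p L) (summable_cM p hp L hL),
    fun z => Complex.exp (Φ z - Ψ z), fun z => Complex.exp (Ψ z), ?_, ?_, ?_, ?_⟩
  · -- `g` is weakly invertible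
    refine weaklyInvertible_of hp hL (hΦd.sub hΨd) (K := 3) (by norm_num)
      (fun N => ∑ i ∈ Finset.range N, (S i - W i)) (by simp) ?_ ?_
    · intro N j hj z hz
      have hz' : ‖z‖ ≤ sR N := hz.trans (rR_le_sR hj)
      have e1 := hΦ N z hz'
      have e2 := hΨ N z hz'
      have e3 : Φ z - Ψ z - eval z (∑ i ∈ Finset.range N, (S i - W i)) =
          (Φ z - ∑ i ∈ Finset.range N, (S i).eval z) -
          (Ψ z - ∑ i ∈ Finset.range N, (W i).eval z) := by
        rw [eval_finsetSum]
        simp only [eval_sub, Finset.sum_sub_distrib]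
        ring
      have e4 := norm_sub_le (Φ z - ∑ i ∈ Finset.range N, (S i).eval z)
        (Ψ z - ∑ i ∈ Finset.range N, (W i).eval z)
      have e5 : (fun z => Φ z - Ψ z) z - eval z (∑ i ∈ Finset.range N, (S i - W i)) =
          Φ z - Ψ z - eval z (∑ i ∈ Finset.range N, (S i - W i)) := rfl
      change ‖Φ z - Ψ z - eval z (∑ i ∈ Finset.range N, (S i - W i))‖ ≤ _
      rw [e3]
      linarith
    · intro N j hNj z hz
      have e1 := abs_le.1 (hΦc j z hz)
      have e2 := abs_le.1 (hΨc j z hz)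
      have e3 := hG j N hNj z hz
      change (Φ z - Ψ z - eval z (∑ i ∈ Finset.range N, (S i - W i))).re ≤ _
      rw [eval_finsetSum, Complex.sub_re, Complex.sub_re]
      have e4 : (∑ i ∈ Finset.range (j + 1), (S i - W i).eval z).re =
          (∑ i ∈ Finset.range (j + 1), (S i).eval z).re -
          (∑ i ∈ Finset.range (j + 1), (W i).eval z).re := by
        rw [← Complex.sub_re, ← Finset.sum_sub_distrib]
        simp only [eval_sub]
      rw [e4] at e3
      linarith
  · -- `h` is weakly invertible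
    refine weaklyInvertible_of hp hL hΨd (K := 3) (by norm_num)
      (fun N => ∑ i ∈ Finset.range N, W i) (by simp) ?_ ?_
    · intro N j hj z hz
      have hz' : ‖z‖ ≤ sR N := hz.trans (rR_le_sR hj)
      have e2 := hΨ N z hz'
      rw [eval_finsetSum]
      have : (0:ℝ) ≤ (1/2) ^ N := by positivity
      linarith
    · intro N j hNj z hz
      have e2 := abs_le.1 (hΨc j z hz)
      have e3 := hH j N hNj z hz
      rw [eval_finsetSum, Complex.sub_re]
      linarith
  · -- the product is in the space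
    rw [hprod]
    refine ⟨hΦd.cexp, ?_⟩
    have hb : ∀ j (z : ℂ), ‖z‖ ≤ rR j → ‖Complex.exp (Φ z)‖ ≤ Real.exp 2 * Real.exp (L j) := by
      intro j z hz
      refine norm_le_of_circle hΦd.cexp (rR_pos j) (rR_lt_one j) ?_ hz
      intro w hw
      rw [Complex.norm_exp, ← Real.exp_add]
      apply Real.exp_le_exp.2
      have e1 := abs_le.1 (hΦc j w hw)
      have e2 := hup j w hw
      linarith
    have := eNorm_le_two hp (L := L) (Φ := fun z => Complex.exp (Φ z)) (A := 0) (B := Real.exp 2)
      le_rfl (Real.exp_pos _).le 0 (by intro j hj; omega) (fun j _ z hz => hb j z hz)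
    refine lt_of_le_of_lt this ?_
    exact ENNReal.rpow_lt_top_of_nonneg (by positivity) ENNReal.ofReal_ne_top
  · -- the product is not weakly invertible
    rw [hprod]
    refine not_weaklyInvertible (n := n) hp hL hΦd hn8 ?_ ?_
    · intro j z hz hz'
      have e1 := abs_le.1 (hΦc j z hz)
      have e2 := hE j z hz hz'
      linarith
    · intro j
      obtain ⟨z, hz, hz'⟩ := hneg j
      refine ⟨z, hz, ?_⟩
      have e1 := abs_le.1 (hΦc j z hz)
      linarith

end Pool.Agent.Results.MP_2c3223_an.Q1Negative
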